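import Mathlib
import Pool.Agent.Helper55.JS.Walks

/-!
# Project JS, piece JS-15: growth along a leg
-/

set_option autoImplicit false

namespace Pool.Agent.Helper55.JS

open Finset

variable {V : Type} [Fintype V] [DecidableEq V] {G : SimpleGraph V}

namespace P15

variable {O Ξ : Type} [Fintype O] [Fintype Ξ] [DecidableEq Ξ] (Os : Finset O) (U : O → V)
    (ξ : O → Ξ) (S : O → Finset V)

omit [Fintype Ξ] in
theorem mem_Pc {i : ℕ} {x : Ξ} {v : V} {q : O × (Fin (i + 1) → V)} :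
    q ∈ Pc G Os U ξ S i x v ↔ q.1 ∈ Os ∧ ξ q.1 = x ∧ IsWalk G q.2 ∧ q.2 0 = U q.1 ∧
    q.2 (Fin.last i) = v ∧ Function.Injective q.2 ∧ ∀ r, q.2 r ∉ S q.1 := by
  classical
  simp only [Pc, mem_filter, mem_univ, true_and]

omit [Fintype Ξ] in
theorem Iv_nonneg (i : ℕ) (x : Ξ) (v : V) : 0 ≤ Iv G Os U ξ S i x v := Nat.cast_nonneg _

omit [Fintype Ξ] in
theorem Iv_le (k : ℕ) (x : Ξ) (v : V) :
    Iv G Os U ξ S (k + 1) x v ≤ ∑ y, adj G y v * Iv G Os U ξ S k x y := by
  classical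
  have h1 : (Pc G Os U ξ S (k + 1) x v).card ≤
      ∑ y ∈ univ.filter (fun y => G.Adj y v), (Pc G Os U ξ S k x y).card := by
    rw [← card_sigma]
    refine card_le_card_of_injOn (fun q => ⟨q.2 (Fin.last k).castSucc, (q.1, Fin.init q.2)⟩) ?_ ?_
    · intro q hq
      rw [mem_coe, mem_Pc] at hq
      obtain ⟨h1, h2, h3, h4, h5, h6, h7⟩ := hq
      rw [mem_coe, mem_sigma, mem_filter, mem_Pc]
      refine ⟨⟨mem_univ _, ?_⟩, h1, h2, fun i => h3 i.castSucc, h4, rfl, ?_, fun r => h7 _⟩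
      · have := h3 (Fin.last k)
        rw [Fin.succ_last, h5] at this
        exact this
      · intro a b hab
        exact Fin.castSucc_injective _ (h6 hab)
    · intro q hq q' hq' h
      rw [mem_coe, mem_Pc] at hq hq'
      simp only [Sigma.mk.injEq] at h
      obtain ⟨h1, h2⟩ := h
      have h3 := eq_of_heq h2
      rw [Prod.mk.injEq] at h3
      refine Prod.ext h3.1 ?_
      have h4 := Fin.snoc_init_self q.2
      have h5 := Fin.snoc_init_self q'.2
      rw [← h4, ← h5, h3.2, hq.2.2.2.2.1, hq'.2.2.2.2.1]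
  have h2 : (Iv G Os U ξ S (k + 1) x v) ≤
      ((∑ y ∈ univ.filter (fun y => G.Adj y v), (Pc G Os U ξ S k x y).card : ℕ) : ℝ) := by
    unfold Iv
    exact_mod_cast h1
  refine h2.trans (le_of_eq ?_)
  rw [Nat.cast_sum, sum_filter]
  refine sum_congr rfl fun y _ => ?_
  rw [adj_apply]
  split_ifs
  · rw [one_mul]; rfl
  · rw [zero_mul]

open Classical in
/-- paths whose end is adjacent to `y` -/
noncomputable def E (G : SimpleGraph V) (Os : Finset O) (U : O → V) (ξ : O → Ξ)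
    (S : O → Finset V) (i : ℕ) (x : Ξ) (y : V) : Finset (O × (Fin (i + 1) → V)) :=
  univ.filter fun q => q.1 ∈ Os ∧ ξ q.1 = x ∧ IsWalk G q.2 ∧ q.2 0 = U q.1 ∧
    G.Adj (q.2 (Fin.last i)) y ∧ Function.Injective q.2 ∧ ∀ r, q.2 r ∉ S q.1

omit [Fintype Ξ] in
theorem mem_E {i : ℕ} {x : Ξ} {y : V} {q : O × (Fin (i + 1) → V)} :
    q ∈ E G Os U ξ S i x y ↔ q.1 ∈ Os ∧ ξ q.1 = x ∧ IsWalk G q.2 ∧ q.2 0 = U q.1 ∧
    G.Adj (q.2 (Fin.last i)) y ∧ Function.Injective q.2 ∧ ∀ r, q.2 r ∉ S q.1 := by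
  classical
  simp only [E, mem_filter, mem_univ, true_and]

omit [Fintype Ξ] in
theorem sum_adj_le (i : ℕ) (x : Ξ) (y : V) :
    ∑ v, adj G y v * Iv G Os U ξ S i x v ≤ ((E G Os U ξ S i x y).card : ℝ) := by
  classical
  have h1 : ∑ v ∈ univ.filter (fun v => G.Adj y v), (Pc G Os U ξ S i x v).card ≤
      (E G Os U ξ S i x y).card := by
    rw [← card_sigma]
    refine card_le_card_of_injOn (fun q => q.2) ?_ ?_
    · rintro ⟨v, q⟩ hq
      rw [mem_coe, mem_sigma, mem_filter, mem_Pc] at hq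
      obtain ⟨⟨_, h0⟩, h1, h2, h3, h4, h5, h6, h7⟩ := hq
      rw [mem_coe, mem_E]
      refine ⟨h1, h2, h3, h4, ?_, h6, h7⟩
      dsimp only at h0 h5 ⊢
      rw [h5]
      exact h0.symm
    · rintro ⟨v, q⟩ hq ⟨v', q'⟩ hq' h
      rw [mem_coe, mem_sigma, mem_Pc] at hq hq'
      dsimp only at h
      subst h
      have e1 := hq.2.2.2.2.2.1
      have e2 := hq'.2.2.2.2.2.1
      dsimp only at e1 e2
      have : v = v' := e1.symm.trans e2
      subst this
      rfl
  refine le_trans (le_of_eq ?_) (Nat.cast_le.2 h1)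
  rw [Nat.cast_sum, sum_filter]
  refine sum_congr rfl fun v _ => ?_
  rw [adj_apply]
  split_ifs
  · rw [one_mul]; rfl
  · rw [zero_mul]

omit [Fintype Ξ] in
theorem card_E_le {i : ℕ} (x : Ξ) (y : V) :
    ((E G Os U ξ S i x y).card : ℝ) ≤ Iv G Os U ξ S (i + 1) x y +
      ∑ i' ∈ range i, Iv G Os U ξ S i' x y * W G (i + 1 - i') y y + βv G Os U ξ S i x y := by
  classical
  obtain ⟨E1, hE1⟩ : ∃ E1, E1 = (E G Os U ξ S i x y).filter
      (fun q => (∀ r, q.2 r ≠ y) ∧ y ∉ S q.1) := ⟨_, rfl⟩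
  obtain ⟨E2, hE2⟩ : ∃ E2 : ℕ → Finset (O × (Fin (i + 1) → V)), E2 = fun i' =>
      (E G Os U ξ S i x y).filter (fun q => ∃ h : i' < i + 1, q.2 ⟨i', h⟩ = y) := ⟨_, rfl⟩
  obtain ⟨E3, hE3⟩ : ∃ E3, E3 = (E G Os U ξ S i x y).filter (fun q => y ∈ S q.1) := ⟨_, rfl⟩
  have hsub : E G Os U ξ S i x y ⊆ (E1 ∪ (range i).biUnion E2) ∪ E3 := by
    intro q hq
    rw [mem_union, mem_union, mem_biUnion, hE1, hE2, hE3, mem_filter, mem_filter]
    by_cases h3 : y ∈ S q.1
    · exact Or.inr ⟨hq, h3⟩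
    · left
      by_cases h1 : ∀ r, q.2 r ≠ y
      · exact Or.inl ⟨hq, h1, h3⟩
      · right
        push Not at h1
        obtain ⟨r, hr⟩ := h1
        refine ⟨r, ?_, ?_⟩
        · rw [mem_range]
          have hne : r ≠ Fin.last i := by
            rintro rfl
            have := (mem_E Os U ξ S).1 hq
            have h5 := this.2.2.2.2.1
            rw [hr] at h5
            exact G.loopless.irrefl y h5
          have := Fin.val_lt_last hne
          exact this
        · rw [mem_filter]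
          exact ⟨hq, r.2, hr⟩
  have hc1 : (E1.card : ℝ) ≤ Iv G Os U ξ S (i + 1) x y := by
    unfold Iv
    norm_cast
    refine card_le_card_of_injOn
      (fun q => (q.1, (Fin.snoc q.2 y : Fin (i + 1 + 1) → V))) ?_ ?_
    · intro q hq
      rw [mem_coe, hE1, mem_filter, mem_E] at hq
      obtain ⟨⟨h1, h2, h3, h4, h5, h6, h7⟩, h8, h9⟩ := hq
      rw [mem_coe, mem_Pc]
      dsimp only
      refine ⟨h1, h2, h3.snoc h5, ?_, ?_, ?_, ?_⟩
      · have : (0 : Fin (i + 1 + 1)) = Fin.castSucc 0 := rfl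
        rw [this, Fin.snoc_castSucc]
        exact h4
      · rw [Fin.snoc_last]
      · rw [Fin.snoc_injective_iff]
        refine ⟨h6, ?_⟩
        rintro ⟨r, hr⟩
        exact h8 r hr
      · intro r
        refine Fin.lastCases ?_ (fun r => ?_) r
        · rw [Fin.snoc_last]; exact h9
        · rw [Fin.snoc_castSucc]; exact h7 r
    · intro q _ q' _ h
      dsimp only at h
      rw [Prod.mk.injEq] at h
      refine Prod.ext h.1 ?_
      have := congrArg Fin.init h.2
      rwa [Fin.init_snoc, Fin.init_snoc] at this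
  have hc2 : ∀ i' ∈ range i, ((E2 i').card : ℝ) ≤ Iv G Os U ξ S i' x y * W G (i + 1 - i') y y := by
    intro i' hi'
    rw [mem_range] at hi'
    unfold Iv
    rw [← card_wk, ← Nat.cast_mul, ← card_product]
    norm_cast
    refine card_le_card_of_injOn (fun q => ((q.1, fun r : Fin (i' + 1) => q.2 ⟨r, by omega⟩),
      fun r : Fin (i + 1 - i' + 1) =>
        (Fin.snoc q.2 y : Fin (i + 1 + 1) → V) ⟨i' + r, by omega⟩)) ?_ ?_
    · intro q hq
      simp only [hE2, mem_coe, mem_filter, mem_E] at hq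
      obtain ⟨⟨h1, h2, h3, h4, h5, h6, h7⟩, h, h8⟩ := hq
      rw [mem_coe, mem_product, mem_Pc, mem_wk]
      dsimp only
      have hsn := h3.snoc h5
      refine ⟨⟨h1, h2, ?_, ?_, ?_, ?_, fun r => h7 _⟩, hsn.win i' (i + 1 - i') (by omega), ?_, ?_⟩
      · have := h3.win 0 i' (by omega)
        have e : (fun r : Fin (i' + 1) => q.2 ⟨r, by omega⟩) =
            fun r : Fin (i' + 1) => q.2 ⟨0 + r, by omega⟩ := by
          funext r
          exact congrArg q.2 (Fin.ext (by simp))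
        rw [e]
        exact this
      · rw [← h4]; exact congrArg q.2 (Fin.ext (by simp))
      · rw [← h8]; exact congrArg q.2 (Fin.ext (by simp))
      · intro a b hab
        have := congrArg Fin.val (h6 hab)
        exact Fin.ext this
      · have e : (⟨i' + ((0 : Fin (i + 1 - i' + 1)) : ℕ), by omega⟩ : Fin (i + 1 + 1)) =
            Fin.castSucc ⟨i', h⟩ := Fin.ext (by simp)
        rw [e, Fin.snoc_castSucc]
        exact h8
      · have e : (⟨i' + ((Fin.last (i + 1 - i') : Fin (i + 1 - i' + 1)) : ℕ), by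
            rw [Fin.val_last]; omega⟩ : Fin (i + 1 + 1)) = Fin.last (i + 1) := Fin.ext (by
            simp only [Fin.val_last]; omega)
        rw [e, Fin.snoc_last]
    · intro q hq q' hq' h
      dsimp only at h
      rw [Prod.mk.injEq, Prod.mk.injEq] at h
      obtain ⟨⟨h0, h1⟩, h2⟩ := h
      refine Prod.ext h0 ?_
      funext r
      by_cases hr : (r : ℕ) ≤ i'
      · exact congrFun h1 ⟨r, by omega⟩
      · have := congrFun h2 ⟨r - i', by omega⟩
        dsimp only at this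
        have e : (⟨i' + (r - i'), by omega⟩ : Fin (i + 1 + 1)) = Fin.castSucc r :=
          Fin.ext (by simp; omega)
        rw [e, Fin.snoc_castSucc, Fin.snoc_castSucc] at this
        exact this
  have hc3 : (E3.card : ℝ) ≤ βv G Os U ξ S i x y := by
    unfold βv
    norm_cast
    refine card_le_card fun q hq => ?_
    rw [hE3, mem_filter, mem_E] at hq
    obtain ⟨⟨h1, h2, h3, h4, h5, h6, h7⟩, h8⟩ := hq
    rw [mem_filter]
    exact ⟨mem_univ _, h1, h2, h3, h4, h5, h6, h7, h8⟩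
  have hcard : ((E G Os U ξ S i x y).card : ℝ) ≤
      (E1.card : ℝ) + (∑ i' ∈ range i, ((E2 i').card : ℝ)) + (E3.card : ℝ) := by
    have h1 := card_le_card hsub
    have h2 := card_union_le (E1 ∪ (range i).biUnion E2) E3
    have h3 := card_union_le E1 ((range i).biUnion E2)
    have h4 := card_biUnion_le (s := range i) (t := E2)
    have h5 : (E G Os U ξ S i x y).card ≤ E1.card + (∑ i' ∈ range i, (E2 i').card) + E3.card := by
      omega
    exact_mod_cast h5
  have := sum_le_sum hc2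
  linarith

/-- Cauchy-Schwarz for double sums -/
theorem cs2 {A B : Type} [Fintype A] [Fintype B] (f g : A → B → ℝ) :
    ∑ a, ∑ b, f a b * g a b ≤ √(∑ a, ∑ b, f a b ^ 2) * √(∑ a, ∑ b, g a b ^ 2) := by
  have h := Real.sum_mul_le_sqrt_mul_sqrt (univ : Finset (A × B)) (fun p => f p.1 p.2)
    (fun p => g p.1 p.2)
  rw [Fintype.sum_prod_type, Fintype.sum_prod_type, Fintype.sum_prod_type] at h
  exact h

end P15

open P15 in
/-- JS-15 -/
theorem growth {O Ξ : Type} [Fintype O] [Fintype Ξ] [DecidableEq Ξ] (Os : Finset O) (U : O → V)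
    (ξ : O → Ξ) (S : O → Finset V) {T D : ℝ} (hT : 0 ≤ T) (hD : 0 < D) {i : ℕ} (hi : 1 ≤ i)
    (hW : ∀ m, 2 ≤ m → m ≤ i + 1 → ∀ y, W G m y y ≤ T * D ^ m) :
    Qv G Os U ξ S i ≤ √(Qv G Os U ξ S (i - 1)) * (√(Qv G Os U ξ S (i + 1)) +
      ∑ i' ∈ range i, T * D ^ (i + 1 - i') * √(Qv G Os U ξ S i') +
      √(∑ x, ∑ y, βv G Os U ξ S i x y ^ 2)) := by
  obtain ⟨k, rfl⟩ : ∃ k, i = k + 1 := ⟨i - 1, by omega⟩
  rw [Nat.add_sub_cancel]
  have hx : ∀ x, ∑ v, Iv G Os U ξ S (k + 1) x v ^ 2 ≤ ∑ y, Iv G Os U ξ S k x y *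
      (Iv G Os U ξ S (k + 1 + 1) x y + ∑ i' ∈ range (k + 1), T * D ^ (k + 1 + 1 - i') *
        Iv G Os U ξ S i' x y + βv G Os U ξ S (k + 1) x y) := by
    intro x
    calc ∑ v, Iv G Os U ξ S (k + 1) x v ^ 2
        ≤ ∑ v, (∑ y, adj G y v * Iv G Os U ξ S k x y) * Iv G Os U ξ S (k + 1) x v := by
          refine sum_le_sum fun v _ => ?_
          rw [sq]
          exact mul_le_mul_of_nonneg_right (Iv_le Os U ξ S k x v) (Iv_nonneg Os U ξ S _ _ _)
      _ = ∑ y, Iv G Os U ξ S k x y * ∑ v, adj G y v * Iv G Os U ξ S (k + 1) x v := by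
          simp only [sum_mul, mul_sum]
          rw [sum_comm]
          refine sum_congr rfl fun y _ => sum_congr rfl fun v _ => ?_
          ring
      _ ≤ _ := by
          refine sum_le_sum fun y _ => mul_le_mul_of_nonneg_left ?_ (Iv_nonneg Os U ξ S _ _ _)
          refine (sum_adj_le Os U ξ S (k + 1) x y).trans ((card_E_le Os U ξ S x y).trans ?_)
          have : ∑ i' ∈ range (k + 1), Iv G Os U ξ S i' x y * W G (k + 1 + 1 - i') y y ≤
              ∑ i' ∈ range (k + 1), T * D ^ (k + 1 + 1 - i') * Iv G Os U ξ S i' x y := by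
            refine sum_le_sum fun i' hi' => ?_
            rw [mem_range] at hi'
            rw [mul_comm]
            exact mul_le_mul_of_nonneg_right (hW _ (by omega) (by omega) y)
              (Iv_nonneg Os U ξ S _ _ _)
          linarith
  have h1 : Qv G Os U ξ S (k + 1) ≤ (∑ x, ∑ y, Iv G Os U ξ S k x y * Iv G Os U ξ S (k + 1 + 1) x y) +
      (∑ i' ∈ range (k + 1), T * D ^ (k + 1 + 1 - i') *
        ∑ x, ∑ y, Iv G Os U ξ S k x y * Iv G Os U ξ S i' x y) +
      ∑ x, ∑ y, Iv G Os U ξ S k x y * βv G Os U ξ S (k + 1) x y := by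
    refine (sum_le_sum fun x _ => hx x).trans (le_of_eq ?_)
    have e : ∑ i' ∈ range (k + 1), T * D ^ (k + 1 + 1 - i') *
        ∑ x, ∑ y, Iv G Os U ξ S k x y * Iv G Os U ξ S i' x y =
        ∑ x, ∑ y, Iv G Os U ξ S k x y * ∑ i' ∈ range (k + 1), T * D ^ (k + 1 + 1 - i') *
        Iv G Os U ξ S i' x y := by
      simp only [mul_sum]
      rw [sum_comm]
      refine sum_congr rfl fun x _ => ?_
      rw [sum_comm]
      refine sum_congr rfl fun y _ => sum_congr rfl fun i' _ => ?_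
      ring
    rw [e, ← sum_add_distrib, ← sum_add_distrib]
    refine sum_congr rfl fun x _ => ?_
    rw [← sum_add_distrib, ← sum_add_distrib]
    refine sum_congr rfl fun y _ => ?_
    ring
  refine h1.trans ?_
  have c1 := cs2 (fun x y => Iv G Os U ξ S k x y) (fun x y => Iv G Os U ξ S (k + 1 + 1) x y)
  have c3 := cs2 (fun x y => Iv G Os U ξ S k x y) (fun x y => βv G Os U ξ S (k + 1) x y)
  have c2 : ∑ i' ∈ range (k + 1), T * D ^ (k + 1 + 1 - i') *
        ∑ x, ∑ y, Iv G Os U ξ S k x y * Iv G Os U ξ S i' x y ≤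
      ∑ i' ∈ range (k + 1), T * D ^ (k + 1 + 1 - i') *
        (√(Qv G Os U ξ S k) * √(Qv G Os U ξ S i')) := by
    refine sum_le_sum fun i' _ => mul_le_mul_of_nonneg_left ?_ (by positivity)
    exact cs2 (fun x y => Iv G Os U ξ S k x y) (fun x y => Iv G Os U ξ S i' x y)
  have e2 : ∑ i' ∈ range (k + 1), T * D ^ (k + 1 + 1 - i') *
        (√(Qv G Os U ξ S k) * √(Qv G Os U ξ S i')) =
      √(Qv G Os U ξ S k) * ∑ i' ∈ range (k + 1), T * D ^ (k + 1 + 1 - i') *
        √(Qv G Os U ξ S i') := by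
    rw [mul_sum]
    refine sum_congr rfl fun i' _ => ?_
    ring
  rw [e2] at c2
  change _ ≤ √(Qv G Os U ξ S k) * √(Qv G Os U ξ S (k + 1 + 1)) at c1
  change _ ≤ √(Qv G Os U ξ S k) * √(∑ x, ∑ y, βv G Os U ξ S (k + 1) x y ^ 2) at c3
  rw [mul_add, mul_add]
  linarith

end Pool.Agent.Helper55.JS
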